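import Mathlib
import Pool.Agent.H34.SG.Main

set_option autoImplicit false
open Finset
open Pointwise

namespace Pool.Agent.H69.SG

open Pool.Agent.H34.SG (gaps IsSid region pieces small_sums off_count)

/-- Sum of the squares of the gaps of a finite set. -/
noncomputable def gsum (S : Finset ℕ) : ℝ := ∑ p ∈ gaps S, ((p.2 : ℝ) - (p.1 : ℝ)) ^ 2

lemma gsum_nonneg (S : Finset ℕ) : 0 ≤ gsum S := sum_nonneg fun _ _ => sq_nonneg _

/-- Number of elements of `A` in `[m, m + x)`. -/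
def lo (A : Finset ℕ) (m x : ℕ) : ℕ := (A.filter (fun b => m ≤ b ∧ b < m + x)).card

/-- The short sums near the smallest element. -/
lemma end_min (A : Finset ℕ) (m L h K : ℕ) (hm : m ∈ A) (hmin : ∀ b ∈ A, m ≤ b)
    (hL : m + L ∈ A) (hK : 2 ^ K * h ≤ 2 * L) :
    ∑ k ∈ range K, ((2 ^ k * h : ℕ) : ℝ) ^ 2 / (lo A m (2 * (2 ^ k * h)) : ℝ) ^ 2
      ≤ gsum (A + A) := by
  have hscale : ∀ k ∈ range K,
      ((2 ^ k * h : ℕ) : ℝ) ^ 2 / (lo A m (2 * (2 ^ k * h)) : ℝ) ^ 2 ≤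
      ∑ p ∈ gaps (A + A),
        ((Ico p.1 p.2 ∩ Ico (2 * m + 2 ^ k * h) (2 * m + 2 ^ (k + 1) * h)).card : ℝ) ^ 2 := by
    intro k hk
    have hk' := mem_range.1 hk
    have h1 : 2 ^ (k + 1) * h ≤ 2 ^ K * h :=
      Nat.mul_le_mul_right _ (Nat.pow_le_pow_right (by norm_num) hk')
    have h2 : 2 ^ (k + 1) * h = 2 * (2 ^ k * h) := by ring
    rw [h2]
    set y := 2 ^ k * h with hy
    have h3 := region (A + A) (2 * m + y) (2 * m + 2 * y)
      ⟨m + m, add_mem_add hm hm, by omega⟩ ⟨(m + L) + (m + L), add_mem_add hL hL, by omega⟩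
    have h4 : 2 * m + 2 * y - (2 * m + y) = y := by omega
    rw [h4] at h3
    have h5 : (((A + A).filter (fun s => s < 2 * m + 2 * y)).card : ℝ) ≤
        (lo A m (2 * y) : ℝ) ^ 2 := by exact_mod_cast small_sums A m (2 * y) hmin
    apply div_le_of_le_mul₀ (sq_nonneg _) (sum_nonneg (fun _ _ => sq_nonneg _))
    calc (y : ℝ) ^ 2 ≤ _ := h3
      _ ≤ (lo A m (2 * y) : ℝ) ^ 2 * _ :=
        mul_le_mul_of_nonneg_right h5 (sum_nonneg (fun _ _ => sq_nonneg _))
      _ = _ := mul_comm _ _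
  calc _ ≤ ∑ k ∈ range K, ∑ p ∈ gaps (A + A),
            ((Ico p.1 p.2 ∩ Ico (2 * m + 2 ^ k * h) (2 * m + 2 ^ (k + 1) * h)).card : ℝ) ^ 2 :=
        sum_le_sum hscale
    _ = ∑ p ∈ gaps (A + A), ∑ k ∈ range K,
            ((Ico p.1 p.2 ∩ Ico (2 * m + 2 ^ k * h) (2 * m + 2 ^ (k + 1) * h)).card : ℝ) ^ 2 :=
        sum_comm
    _ ≤ gsum (A + A) := by
        apply sum_le_sum
        intro p hp
        refine (pieces (2 * m) h K (Ico p.1 p.2)).trans ?_
        simp only [gaps, mem_filter] at hp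
        rw [Nat.card_Ico, Nat.cast_sub hp.2.1.le]

/-- Trivial lower bound. -/
lemma trivial_bound (A : Finset ℕ) (m L : ℕ) (hm : m ∈ A) (hL : m + L ∈ A) :
    ((2 * L : ℕ) : ℝ) ^ 2 ≤ ((A + A).card : ℝ) * gsum (A + A) := by
  have h3 := region (A + A) (2 * m) (2 * m + 2 * L)
      ⟨m + m, add_mem_add hm hm, by omega⟩ ⟨(m + L) + (m + L), add_mem_add hL hL, by omega⟩
  have h4 : 2 * m + 2 * L - 2 * m = 2 * L := by omega
  rw [h4] at h3
  refine h3.trans ?_
  apply mul_le_mul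
  · exact_mod_cast card_le_card (filter_subset _ _)
  · apply sum_le_sum
    intro p hp
    simp only [gaps, mem_filter] at hp
    have h5 : ((Ico p.1 p.2 ∩ Ico (2 * m) (2 * m + 2 * L)).card : ℝ) ≤ (p.2 : ℝ) - p.1 := by
      rw [← Nat.cast_sub hp.2.1.le, ← Nat.card_Ico p.1 p.2]
      exact_mod_cast card_le_card inter_subset_left
    exact pow_le_pow_left₀ (Nat.cast_nonneg _) h5 2
  · exact sum_nonneg (fun _ _ => sq_nonneg _)
  · exact Nat.cast_nonneg _

lemma gaps_reflect (S : Finset ℕ) (T : ℕ) (hS : ∀ s ∈ S, s ≤ T) (p : ℕ × ℕ)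
    (hp : p ∈ gaps S) : (T - p.2, T - p.1) ∈ gaps (S.image (fun s => T - s)) := by
  simp only [gaps, mem_filter, mem_product, mem_image] at hp ⊢
  obtain ⟨⟨h1, h2⟩, h3, h4⟩ := hp
  have h5 := hS _ h1
  have h6 := hS _ h2
  refine ⟨⟨⟨_, h2, rfl⟩, ⟨_, h1, rfl⟩⟩, by omega, ?_⟩
  rintro z ⟨w, hw, rfl⟩ ⟨hz1, hz2⟩
  have h7 := hS _ hw
  exact h4 w hw ⟨by omega, by omega⟩

lemma gsum_reflect (S : Finset ℕ) (T : ℕ) (hS : ∀ s ∈ S, s ≤ T) :
    gsum (S.image (fun s => T - s)) = gsum S := by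
  have hS' : ∀ s ∈ S.image (fun s => T - s), s ≤ T := by
    intro s hs
    simp only [mem_image] at hs
    obtain ⟨w, _, rfl⟩ := hs
    omega
  have hrr : (S.image (fun s => T - s)).image (fun s => T - s) = S := by
    ext z
    simp only [mem_image, exists_exists_and_eq_and]
    constructor
    · rintro ⟨w, hw, rfl⟩
      have := hS w hw
      have h : T - (T - w) = w := by omega
      rw [h]; exact hw
    · intro hz
      have := hS z hz
      exact ⟨z, hz, by omega⟩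
  unfold gsum
  refine sum_nbij' (fun p => (T - p.2, T - p.1)) (fun p => (T - p.2, T - p.1)) ?_ ?_ ?_ ?_ ?_
  · intro p hp
    have := gaps_reflect _ T hS' p hp
    rw [hrr] at this
    exact this
  · intro p hp
    exact gaps_reflect _ T hS p hp
  · intro p hp
    simp only [gaps, mem_filter, mem_product] at hp
    have h1 := hS' _ hp.1.1
    have h2 := hS' _ hp.1.2
    apply Prod.ext
    · show T - (T - p.1) = p.1
      omega
    · show T - (T - p.2) = p.2
      omega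
  · intro p hp
    simp only [gaps, mem_filter, mem_product] at hp
    have h1 := hS _ hp.1.1
    have h2 := hS _ hp.1.2
    apply Prod.ext
    · show T - (T - p.1) = p.1
      omega
    · show T - (T - p.2) = p.2
      omega
  · intro p hp
    simp only [gaps, mem_filter, mem_product] at hp
    have h1 := hS' _ hp.1.1
    have h2 := hS' _ hp.1.2
    show ((p.2 : ℝ) - p.1) ^ 2 = (((T - p.1 : ℕ) : ℝ) - ((T - p.2 : ℕ) : ℝ)) ^ 2
    rw [Nat.cast_sub h1, Nat.cast_sub h2]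
    ring

lemma add_reflect (A : Finset ℕ) (M : ℕ) (hA : ∀ a ∈ A, a ≤ M) :
    A.image (fun s => M - s) + A.image (fun s => M - s) = (A + A).image (fun s => 2 * M - s) := by
  ext z
  simp only [mem_add, mem_image]
  constructor
  · rintro ⟨_, ⟨a, ha, rfl⟩, _, ⟨b, hb, rfl⟩, rfl⟩
    have := hA a ha
    have := hA b hb
    exact ⟨a + b, ⟨a, ha, b, hb, rfl⟩, by omega⟩
  · rintro ⟨_, ⟨a, ha, b, hb, rfl⟩, rfl⟩
    have := hA a ha
    have := hA b hb
    exact ⟨M - a, ⟨a, ha, rfl⟩, M - b, ⟨b, hb, rfl⟩, by omega⟩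

lemma add_le_two (A : Finset ℕ) (M : ℕ) (hA : ∀ a ∈ A, a ≤ M) : ∀ s ∈ A + A, s ≤ 2 * M := by
  intro s hs
  obtain ⟨a, ha, b, hb, rfl⟩ := mem_add.1 hs
  have := hA a ha
  have := hA b hb
  omega

lemma card_reflect (A : Finset ℕ) (M : ℕ) (hA : ∀ a ∈ A, a ≤ M) :
    (A.image (fun s => M - s)).card = A.card := by
  apply card_image_of_injOn
  intro a ha b hb hab
  have := hA a ha
  have := hA b hb
  simp only at hab
  omega

lemma sid_reflect (A : Finset ℕ) (M : ℕ) (hA : ∀ a ∈ A, a ≤ M) (hS : IsSid A) :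
    IsSid (A.image (fun s => M - s)) := by
  intro a ha b hb c hc d hd h
  simp only [mem_image] at ha hb hc hd
  obtain ⟨a, ha, rfl⟩ := ha
  obtain ⟨b, hb, rfl⟩ := hb
  obtain ⟨c, hc, rfl⟩ := hc
  obtain ⟨d, hd, rfl⟩ := hd
  have h1 := hA a ha
  have h2 := hA b hb
  have h3 := hA c hc
  have h4 := hA d hd
  rcases hS a ha b hb c hc d hd (by omega) with ⟨rfl, rfl⟩ | ⟨rfl, rfl⟩
  · exact Or.inl ⟨rfl, rfl⟩
  · exact Or.inr ⟨rfl, rfl⟩

/-- Sidon: the diameter is at least `k (k - 1) / 2`. -/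
lemma diam (A : Finset ℕ) (m L : ℕ) (hA : ∀ b ∈ A, m ≤ b ∧ b ≤ m + L) (hS : IsSid A) :
    A.card * (A.card - 1) ≤ 2 * L := by
  have h1 := off_count A hS L
  have h2 : (A.offDiag).filter (fun p => p.1 ≤ p.2 + L ∧ p.2 ≤ p.1 + L) = A.offDiag := by
    apply filter_true_of_mem
    intro p hp
    rw [mem_offDiag] at hp
    have h3 := hA _ hp.1
    have h4 := hA _ hp.2.1
    omega
  rw [h2, offDiag_card] at h1
  have h3 : A.card * (A.card - 1) = A.card * A.card - A.card := by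
    rw [Nat.mul_sub, mul_one]
  rw [h3]
  exact h1

end Pool.Agent.H69.SG
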