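import Mathlib
import Pool.Agent.H69.SG.End

set_option autoImplicit false
open Finset
open Pointwise

namespace Pool.Agent.H69.SG

open Pool.Agent.H34.SG (gaps IsSid)

lemma tangent {v t : ℝ} (hv : 0 < v) (ht : 0 < t) : 3 / t ^ 2 - 2 * v / t ^ 3 ≤ 1 / v ^ 2 := by
  have h1 : 1 / v ^ 2 - (3 / t ^ 2 - 2 * v / t ^ 3) = (t - v) ^ 2 * (t + 2 * v) / (v ^ 2 * t ^ 3) := by
    field_simp
    ring
  have h2 : 0 ≤ (t - v) ^ 2 * (t + 2 * v) / (v ^ 2 * t ^ 3) := by positivity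
  linarith

/-- Relative density at the scale `2 ^ j * h`. -/
noncomputable def dens (n : ℝ) (h : ℕ) (r : ℕ → ℕ) (j : ℕ) : ℝ :=
  (1 + (r j : ℝ)) * n / (2 * (2 ^ j * h : ℕ) : ℕ)

lemma dens_pos {n : ℝ} {h : ℕ} (hn : 0 < n) (hh : 0 < h) (r : ℕ → ℕ) (j : ℕ) :
    0 < dens n h r j := by
  unfold dens
  have : (0 : ℝ) < (2 * (2 ^ j * h : ℕ) : ℕ) := by
    have : 0 < 2 * (2 ^ j * h) := by positivity
    exact_mod_cast this
  positivity

lemma dens_sq {n : ℝ} {h : ℕ} (hn : 0 < n) (hh : 0 < h) (r : ℕ → ℕ) (j : ℕ) :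
    ((2 ^ j * h : ℕ) : ℝ) ^ 2 / (1 + (r j : ℝ)) ^ 2 = n ^ 2 / 4 * (1 / dens n h r j ^ 2) := by
  unfold dens
  have h1 : (0 : ℝ) < ((2 ^ j * h : ℕ) : ℝ) := by
    have : 0 < 2 ^ j * h := by positivity
    exact_mod_cast this
  have h2 : (0 : ℝ) < 1 + (r j : ℝ) := by positivity
  rw [Nat.cast_mul 2 (2 ^ j * h)]
  set y : ℝ := ((2 ^ j * h : ℕ) : ℝ)
  set z : ℝ := 1 + (r j : ℝ)
  have h3 : ((2 : ℕ) : ℝ) = 2 := by norm_num
  rw [h3]
  field_simp
  norm_num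

/-- If the average density is at most `t`, the sum over the scales is large. -/
lemma good_scales {n t : ℝ} {h J : ℕ} (hn : 0 < n) (hh : 0 < h) (ht : 0 < t) (r : ℕ → ℕ)
    (hr : ∑ j ∈ range J, dens n h r j ≤ J * t) :
    n ^ 2 * J / (4 * t ^ 2) ≤
      ∑ j ∈ range J, ((2 ^ j * h : ℕ) : ℝ) ^ 2 / (1 + (r j : ℝ)) ^ 2 := by
  have h1 : ∀ j ∈ range J, n ^ 2 / 4 * (3 / t ^ 2 - 2 * dens n h r j / t ^ 3) ≤
      ((2 ^ j * h : ℕ) : ℝ) ^ 2 / (1 + (r j : ℝ)) ^ 2 := by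
    intro j _
    rw [dens_sq hn hh]
    exact mul_le_mul_of_nonneg_left (tangent (dens_pos hn hh r j) ht) (by positivity)
  refine le_trans ?_ (sum_le_sum h1)
  have h5 : ∑ j ∈ range J, n ^ 2 / 4 * (3 / t ^ 2 - 2 * dens n h r j / t ^ 3) =
      n ^ 2 / 4 * (J * (3 / t ^ 2) - (2 * ∑ j ∈ range J, dens n h r j) / t ^ 3) := by
    rw [← mul_sum, sum_sub_distrib, mul_sum, sum_div]
    simp only [sum_const, card_range, nsmul_eq_mul]
  rw [h5]
  have h2 : 2 * ∑ j ∈ range J, dens n h r j ≤ 2 * (J * t) := by linarith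
  have h3 : (2 * ∑ j ∈ range J, dens n h r j) / t ^ 3 ≤ 2 * (J * t) / t ^ 3 :=
    div_le_div_of_nonneg_right h2 (by positivity)
  have h4 : 2 * ((J : ℝ) * t) / t ^ 3 = 2 * J / t ^ 2 := by field_simp
  rw [h4] at h3
  calc n ^ 2 * J / (4 * t ^ 2) = n ^ 2 / 4 * (J * (3 / t ^ 2) - 2 * J / t ^ 2) := by
        field_simp
        ring
    _ ≤ _ := by
        apply mul_le_mul_of_nonneg_left _ (by positivity)
        linarith

/-- The total density is at most twice the number of points. -/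
lemma total_dens {ι : Type} (B : Finset ι) (h J : ℕ) (r : ι → ℕ → ℕ) (hh : 0 < h)
    (hBh : B.card ≤ h) (hr : ∀ j < J, ∑ b ∈ B, r b j ≤ 2 * (2 ^ j * h)) :
    ∑ b ∈ B, ∑ j ∈ range J, dens B.card h (r b) j ≤ 2 * B.card * J := by
  rw [sum_comm]
  have h1 : ∀ j ∈ range J, ∑ b ∈ B, dens B.card h (r b) j ≤ 2 * B.card := by
    intro j hj
    have hj' := mem_range.1 hj
    unfold dens
    rw [← sum_div, ← sum_mul, sum_add_distrib]
    simp only [sum_const, nsmul_eq_mul, mul_one]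
    have h2 : (∑ b ∈ B, (r b j : ℝ)) ≤ ((2 * (2 ^ j * h) : ℕ) : ℝ) := by exact_mod_cast hr j hj'
    have h3 : B.card ≤ 2 * (2 ^ j * h) := by
      have h4 : 1 * h ≤ 2 ^ j * h := Nat.mul_le_mul_right _ Nat.one_le_two_pow
      omega
    have h3' : (B.card : ℝ) ≤ ((2 * (2 ^ j * h) : ℕ) : ℝ) := by exact_mod_cast h3
    have h5 : (0 : ℝ) < ((2 * (2 ^ j * h) : ℕ) : ℝ) := by
      have : 0 < 2 * (2 ^ j * h) := by positivity
      exact_mod_cast this
    rw [div_le_iff₀ h5]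
    have h6 : (0 : ℝ) ≤ (B.card : ℝ) := Nat.cast_nonneg _
    nlinarith
  refine (sum_le_sum h1).trans ?_
  simp only [sum_const, card_range, nsmul_eq_mul]
  linarith

/-- Few points with large average density. -/
lemma markov {ι : Type} (B : Finset ι) (h J : ℕ) (r : ι → ℕ → ℕ) (hh : 0 < h)
    (hBh : B.card ≤ h) (hr : ∀ j < J, ∑ b ∈ B, r b j ≤ 2 * (2 ^ j * h)) (t : ℝ) (ht : 0 < t)
    (E : Finset ι) (hE : E ⊆ B) (hE2 : ∀ b ∈ E, J * t < ∑ j ∈ range J, dens B.card h (r b) j) :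
    (E.card : ℝ) ≤ 2 * B.card / t := by
  rcases Nat.eq_zero_or_pos J with rfl | hJ
  · have : E = ∅ := by
      rw [eq_empty_iff_forall_notMem]
      intro b hb
      have := hE2 b hb
      simp at this
    rw [this]
    simp only [card_empty, Nat.cast_zero]
    positivity
  have h0 : ∀ b ∈ B, 0 ≤ ∑ j ∈ range J, dens B.card h (r b) j := by
    intro b hb
    have hB : (0 : ℝ) < B.card := by exact_mod_cast card_pos.2 ⟨b, hb⟩
    exact sum_nonneg (fun j _ => (dens_pos hB hh (r b) j).le)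
  have h1 : (E.card : ℝ) * (J * t) ≤ 2 * B.card * J := by
    calc (E.card : ℝ) * (J * t) = ∑ _b ∈ E, (J * t) := by simp
      _ ≤ ∑ b ∈ E, ∑ j ∈ range J, dens B.card h (r b) j := sum_le_sum (fun b hb => (hE2 b hb).le)
      _ ≤ ∑ b ∈ B, ∑ j ∈ range J, dens B.card h (r b) j :=
        sum_le_sum_of_subset_of_nonneg hE (fun b hb _ => h0 b hb)
      _ ≤ _ := total_dens B h J r hh hBh hr
  have hJ' : (0 : ℝ) < J := by exact_mod_cast hJ
  rw [le_div_iff₀ ht]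
  have h2 : (J : ℝ) * (E.card * t) ≤ J * (2 * B.card) := by linarith
  exact le_of_mul_le_mul_left h2 hJ'

end Pool.Agent.H69.SG
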