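import Mathlib
import Pool.Agent.H69.SG.Count

set_option autoImplicit false
open Finset
open Pointwise

namespace Pool.Agent.H69.SG

open Pool.Agent.H34.SG (gaps IsSid)

/-- The mean square gap of `A + A`. -/
noncomputable def msg (A : Finset ℕ) : ℝ := (1 / ((A + A).card : ℝ)) * gsum (A + A)

lemma msg_nonneg (A : Finset ℕ) : 0 ≤ msg A := mul_nonneg (by positivity) (gsum_nonneg _)

lemma sum_up (B : Finset ℕ) (hS : IsSid B) (x : ℕ) :
    ∑ b ∈ B, (B.filter (fun z => b < z ∧ z < b + x)).card ≤ x := by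
  rw [← card_sigma]
  calc _ ≤ (range x).card := by
        apply card_le_card_of_injOn (fun p => p.2 - p.1)
        · rintro ⟨b, z⟩ hp
          simp only [coe_sigma, Set.mem_sigma_iff, mem_coe, mem_filter] at hp
          simp only [coe_range, Set.mem_Iio]
          omega
        · rintro ⟨b, z⟩ hp ⟨b', z'⟩ hq hpq
          simp only [coe_sigma, Set.mem_sigma_iff, mem_coe, mem_filter] at hp hq
          simp only at hpq
          have h : z + b' = z' + b := by omega
          rcases hS z hp.2.1 b' hq.1 z' hq.2.1 b hp.1 h with h' | h'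
          · rw [h'.1, h'.2]
          · omega
    _ = x := card_range x

lemma sum_dn (B : Finset ℕ) (hS : IsSid B) (x : ℕ) :
    ∑ b ∈ B, (B.filter (fun z => z < b ∧ b < z + x)).card ≤ x := by
  rw [← card_sigma]
  calc _ ≤ (range x).card := by
        apply card_le_card_of_injOn (fun p => p.1 - p.2)
        · rintro ⟨b, z⟩ hp
          simp only [coe_sigma, Set.mem_sigma_iff, mem_coe, mem_filter] at hp
          simp only [coe_range, Set.mem_Iio]
          omega
        · rintro ⟨b, z⟩ hp ⟨b', z'⟩ hq hpq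
          simp only [coe_sigma, Set.mem_sigma_iff, mem_coe, mem_filter] at hp hq
          simp only at hpq
          have h : z + b' = z' + b := by omega
          rcases hS z hp.2.1 b' hq.1 z' hq.2.1 b hp.1 h with h' | h'
          · rw [h'.1, h'.2]
          · omega
    _ = x := card_range x

/-- Lower bound from the smallest element. -/
lemma low_bound (A : Finset ℕ) (hS : IsSid A) (m : ℕ) (hm : m ∈ A) (hmin : ∀ b ∈ A, m ≤ b)
    (n t : ℝ) (h J : ℕ) (r : ℕ → ℕ) (hn : 0 < n) (hh : 0 < h) (ht : 0 < t)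
    (hlo : ∀ j < J, lo A m (2 * (2 ^ j * h)) ≤ 1 + r j)
    (hJ : 2 ^ J * h ≤ A.card * (A.card - 1))
    (hr : ∑ j ∈ range J, dens n h r j ≤ J * t) :
    n ^ 2 * J / (4 * t ^ 2) ≤ gsum (A + A) := by
  have hM := max'_mem A ⟨m, hm⟩
  obtain ⟨L, hL⟩ := Nat.exists_eq_add_of_le (hmin _ hM)
  rw [hL] at hM
  have h1 : A.card * (A.card - 1) ≤ 2 * L := by
    apply diam A m L _ hS
    intro b hb
    have := le_max' A b hb
    exact ⟨hmin b hb, by omega⟩
  refine (good_scales hn hh ht r hr).trans (le_trans ?_ (end_min A m L h J hm hmin hM (by omega)))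
  apply sum_le_sum
  intro j hj
  have hj' := mem_range.1 hj
  have h2 : 0 < lo A m (2 * (2 ^ j * h)) := by
    unfold lo
    rw [card_pos]
    refine ⟨m, ?_⟩
    rw [mem_filter]
    have h3 : 0 < 2 ^ j * h := by positivity
    exact ⟨hm, le_rfl, by omega⟩
  have h2' : (0 : ℝ) < lo A m (2 * (2 ^ j * h)) := by exact_mod_cast h2
  have h4 : (lo A m (2 * (2 ^ j * h)) : ℝ) ≤ 1 + r j := by exact_mod_cast hlo j hj'
  apply div_le_div_of_nonneg_left (sq_nonneg _) (by positivity)
  exact pow_le_pow_left₀ h2'.le h4 2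

lemma msg_of_gsum (A : Finset ℕ) (hA : A.Nonempty) (n c : ℝ) (hn : (A.card : ℝ) ≤ n) (hc : 0 ≤ c)
    (h : n ^ 2 * c ≤ gsum (A + A)) : c ≤ msg A := by
  have h1 : (0 : ℝ) < (A + A).card := Nat.cast_pos.2 (card_pos.2 (hA.add hA))
  have h2 : ((A + A).card : ℝ) ≤ n ^ 2 := by
    calc ((A + A).card : ℝ) ≤ (A.card : ℝ) * A.card := by exact_mod_cast card_add_le
      _ = (A.card : ℝ) ^ 2 := by ring
      _ ≤ n ^ 2 := pow_le_pow_left₀ (Nat.cast_nonneg _) hn 2
  unfold msg
  rw [one_div_mul_eq_div, le_div_iff₀ h1]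
  calc c * (A + A).card ≤ c * n ^ 2 := mul_le_mul_of_nonneg_left h2 hc
    _ = n ^ 2 * c := mul_comm _ _
    _ ≤ _ := h

lemma msg_trivial (A : Finset ℕ) (hS : IsSid A) (hA : 2 ≤ A.card) : 1 / 4 ≤ msg A := by
  have hne : A.Nonempty := by rw [← card_pos]; omega
  have hM := max'_mem A hne
  have hm := min'_mem A hne
  obtain ⟨L, hL⟩ := Nat.exists_eq_add_of_le (min'_le A _ hM)
  rw [hL] at hM
  have h1 : A.card * (A.card - 1) ≤ 2 * L := by
    apply diam A (A.min' hne) L _ hS
    intro b hb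
    have := le_max' A b hb
    exact ⟨min'_le A b hb, by omega⟩
  have h2 := trivial_bound A _ L hm hM
  have h3 : (0 : ℝ) < (A + A).card := Nat.cast_pos.2 (card_pos.2 (hne.add hne))
  have h4 : ((A + A).card : ℝ) ≤ (A.card : ℝ) * A.card := by exact_mod_cast card_add_le
  have h5 : A.card * A.card ≤ 2 * (2 * L) := by
    have h6 : A.card ≤ 2 * (A.card - 1) := by omega
    calc A.card * A.card ≤ A.card * (2 * (A.card - 1)) := Nat.mul_le_mul_left _ h6
      _ = 2 * (A.card * (A.card - 1)) := by ring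
      _ ≤ _ := Nat.mul_le_mul_left _ h1
  have h5' : (A.card : ℝ) * A.card ≤ 2 * ((2 * L : ℕ) : ℝ) := by exact_mod_cast h5
  have h7 : ((A + A).card : ℝ) ≤ 2 * ((2 * L : ℕ) : ℝ) := h4.trans h5'
  unfold msg
  rw [one_div_mul_eq_div, le_div_iff₀ h3]
  set S : ℝ := ((A + A).card : ℝ)
  set Y : ℝ := ((2 * L : ℕ) : ℝ)
  have h8 : S ^ 2 ≤ 4 * Y ^ 2 := by nlinarith
  have h9 : S * (S / 4) ≤ S * gsum (A + A) := by nlinarith
  have := le_of_mul_le_mul_left h9 h3
  linarith

lemma real_final (k n : ℕ) (hn : 0 < n) (ε M : ℝ) (h0 : 0 ≤ ε) (h1 : ε ≤ 1) (hM0 : 0 ≤ M)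
    (hM : 2 ≤ k → 1 / 4 ≤ M)
    (hMJ : ε ^ 2 * (Nat.log 2 (k * (k - 1) / n) : ℝ) / 16 ≤ M) :
    ε ^ 2 * Real.log ((k : ℝ) ^ 2 / n) / 25 ≤ M := by
  have hn' : (0 : ℝ) < n := by exact_mod_cast hn
  have hn1 : (1 : ℝ) ≤ n := by exact_mod_cast hn
  have hε : ε ^ 2 ≤ 1 := pow_le_one₀ h0 h1
  rcases Nat.lt_or_ge k 2 with hk | hk
  · have h2 : (k : ℝ) ≤ 1 := by exact_mod_cast Nat.lt_succ_iff.1 hk
    have h3 : (k : ℝ) ^ 2 ≤ 1 := pow_le_one₀ (Nat.cast_nonneg _) h2
    have h4 : Real.log ((k : ℝ) ^ 2 / n) ≤ 0 := by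
      apply Real.log_nonpos (by positivity)
      rw [div_le_one hn']
      linarith
    nlinarith [mul_nonneg_of_nonpos_of_nonpos (neg_nonpos.2 (sq_nonneg ε)) h4]
  · have hM1 := hM hk
    set q := k * (k - 1) / n with hq
    set J := Nat.log 2 q with hJ
    have h2 : q < 2 ^ (J + 1) := Nat.lt_pow_succ_log_self (by norm_num) q
    have h3 : k * (k - 1) < n * (q + 1) := by
      rw [hq]
      exact Nat.lt_mul_div_succ _ hn
    have h4 : k * (k - 1) < n * 2 ^ (J + 1) :=
      lt_of_lt_of_le h3 (Nat.mul_le_mul_left _ h2)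
    have h5 : k ^ 2 ≤ 2 * (k * (k - 1)) := by
      have h6 : k ≤ 2 * (k - 1) := by omega
      calc k ^ 2 = k * k := sq k
        _ ≤ k * (2 * (k - 1)) := Nat.mul_le_mul_left _ h6
        _ = _ := by ring
    have h6 : k ^ 2 ≤ n * 2 ^ (J + 2) := by
      calc k ^ 2 ≤ 2 * (n * 2 ^ (J + 1)) := h5.trans (Nat.mul_le_mul_left _ h4.le)
        _ = _ := by ring
    have h6' : (k : ℝ) ^ 2 ≤ n * 2 ^ (J + 2) := by exact_mod_cast h6
    have h7 : (k : ℝ) ^ 2 / n ≤ 2 ^ (J + 2) := by
      rw [div_le_iff₀ hn']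
      linarith
    have hk' : (0 : ℝ) < k := by
      have : 0 < k := by omega
      exact_mod_cast this
    have h8 : Real.log ((k : ℝ) ^ 2 / n) ≤ (J + 2) * Real.log 2 := by
      have h9 := Real.log_le_log (by positivity) h7
      rw [Real.log_pow] at h9
      push_cast at h9
      exact h9
    have h10 : Real.log 2 < 0.7 := lt_of_lt_of_le Real.log_two_lt_d9 (by norm_num)
    have hJ0 : (0 : ℝ) ≤ J := Nat.cast_nonneg _
    have h11 : Real.log ((k : ℝ) ^ 2 / n) ≤ (J + 2) * 0.7 := by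
      refine h8.trans ?_
      exact mul_le_mul_of_nonneg_left h10.le (by linarith)
    have h12 : ε ^ 2 * Real.log ((k : ℝ) ^ 2 / n) ≤ ε ^ 2 * ((J + 2) * 0.7) :=
      mul_le_mul_of_nonneg_left h11 (sq_nonneg _)
    rcases Nat.lt_or_ge J 2 with hJ2 | hJ2
    · have h13 : (J : ℝ) ≤ 1 := by exact_mod_cast Nat.lt_succ_iff.1 hJ2
      have h14 : ε ^ 2 * ((J + 2) * 0.7) ≤ 1 * ((1 + 2) * 0.7) := by
        apply mul_le_mul hε _ (by positivity) (by norm_num)
        linarith
      linarith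
    · have h13 : (2 : ℝ) ≤ J := by exact_mod_cast hJ2
      have h14 : ε ^ 2 * ((J + 2) * 0.7) ≤ ε ^ 2 * (1.4 * J) := by
        apply mul_le_mul_of_nonneg_left _ (sq_nonneg _)
        linarith
      have h15 : 0 ≤ ε ^ 2 * (J : ℝ) := by positivity
      nlinarith

lemma pow_log_le (k n : ℕ) (hq : k * (k - 1) / n ≠ 0) :
    2 ^ Nat.log 2 (k * (k - 1) / n) * n ≤ k * (k - 1) := by
  calc 2 ^ Nat.log 2 (k * (k - 1) / n) * n ≤ (k * (k - 1) / n) * n :=
        Nat.mul_le_mul_right _ (Nat.pow_log_le_self 2 hq)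
    _ ≤ _ := Nat.div_mul_le_self _ _

/-- Main theorem for subsets of a fixed Sidon set. -/
theorem seg (B : Finset ℕ) (hS : IsSid B) (k : ℕ) (ε : ℝ) (h0 : 0 < ε) (h1 : ε ≤ 1) :
    ∃ E₁ ⊆ B, ∃ E₂ ⊆ B, (E₁.card : ℝ) ≤ ε * B.card ∧ (E₂.card : ℝ) ≤ ε * B.card ∧
      ∀ A ⊆ B, k ≤ A.card → ∀ hA : A.Nonempty, (A.min' hA ∉ E₁ ∨ A.max' hA ∉ E₂) →
        ε ^ 2 * Real.log ((k : ℝ) ^ 2 / B.card) / 25 ≤ msg A := by
  classical
  rcases B.eq_empty_or_nonempty with rfl | hB
  · refine ⟨∅, subset_rfl, ∅, subset_rfl, by simp, by simp, ?_⟩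
    intro A hA _ hne _
    exact absurd (hne.mono hA) (by simp)
  have hn : 0 < B.card := card_pos.2 hB
  have hn' : (0 : ℝ) < B.card := by exact_mod_cast hn
  set n := B.card with hndef
  set J := Nat.log 2 (k * (k - 1) / n) with hJ
  set t : ℝ := 2 / ε with htdef
  have ht : 0 < t := by positivity
  set r₁ : ℕ → ℕ → ℕ := fun b j => (B.filter (fun z => b < z ∧ z < b + 2 * (2 ^ j * n))).card
    with hr₁
  set r₂ : ℕ → ℕ → ℕ := fun b j => (B.filter (fun z => z < b ∧ b < z + 2 * (2 ^ j * n))).card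
    with hr₂
  set E₁ := B.filter (fun b => J * t < ∑ j ∈ range J, dens n n (r₁ b) j) with hE₁
  set E₂ := B.filter (fun b => J * t < ∑ j ∈ range J, dens n n (r₂ b) j) with hE₂
  have ht2 : ∀ x : ℝ, 2 * x / t = ε * x := by
    intro x
    rw [htdef]
    field_simp
  have ht3 : ∀ x y : ℝ, x ^ 2 * y / (4 * t ^ 2) = x ^ 2 * (ε ^ 2 * y / 16) := by
    intro x y
    rw [htdef]
    field_simp
    ring
  refine ⟨E₁, filter_subset _ _, E₂, filter_subset _ _, ?_, ?_, ?_⟩
  · rw [← ht2]
    exact markov B n J r₁ hn le_rfl (fun j _ => sum_up B hS _) t ht E₁ (filter_subset _ _)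
      (fun b hb => (mem_filter.1 hb).2)
  · rw [← ht2]
    exact markov B n J r₂ hn le_rfl (fun j _ => sum_dn B hS _) t ht E₂ (filter_subset _ _)
      (fun b hb => (mem_filter.1 hb).2)
  · intro A hAB hkA hA hend
    have hSA : IsSid A := fun a ha b hb c hc d hd =>
      hS a (hAB ha) b (hAB hb) c (hAB hc) d (hAB hd)
    have hAn : (A.card : ℝ) ≤ n := by exact_mod_cast card_le_card hAB
    apply real_final k n hn ε (msg A) h0.le h1 (msg_nonneg A)
      (fun hk => msg_trivial A hSA (hk.trans hkA))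
    by_cases hq : k * (k - 1) / n = 0
    · have : J = 0 := by rw [hJ, hq]; simp
      rw [← hJ, this]
      simpa using msg_nonneg A
    have hJ2 : 2 ^ J * n ≤ A.card * (A.card - 1) :=
      (pow_log_le k n hq).trans (Nat.mul_le_mul hkA (Nat.sub_le_sub_right hkA 1))
    apply msg_of_gsum A hA n _ hAn (by positivity)
    rw [← ht3]
    rcases hend with hend | hend
    · have hmA := min'_mem A hA
      set m := A.min' hA with hm
      have hmin : ∀ b ∈ A, m ≤ b := fun b hb => min'_le A b hb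
      apply low_bound A hSA m hmA hmin n t n J (r₁ m) hn' hn ht _ hJ2
      · by_contra hcon
        push Not at hcon
        exact hend (by rw [hE₁, mem_filter]; exact ⟨hAB hmA, hcon⟩)
      · intro j _
        have h2 : A.filter (fun b => m ≤ b ∧ b < m + 2 * (2 ^ j * n)) ⊆
            insert m (B.filter (fun z => m < z ∧ z < m + 2 * (2 ^ j * n))) := by
          intro z hz
          simp only [mem_filter] at hz
          simp only [mem_insert, mem_filter]
          rcases hz.2.1.eq_or_lt with h | h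
          · exact Or.inl h.symm
          · exact Or.inr ⟨hAB hz.1, h, hz.2.2⟩
        calc lo A m (2 * (2 ^ j * n)) ≤ _ := card_le_card h2
          _ ≤ _ := card_insert_le _ _
          _ = 1 + r₁ m j := by rw [add_comm]
    · have hMA := max'_mem A hA
      set m := A.max' hA with hm
      have hmax : ∀ b ∈ A, b ≤ m := fun b hb => le_max' A b hb
      set A' := A.image (fun s => m - s) with hA'
      have h3 : gsum (A' + A') = gsum (A + A) := by
        rw [hA', add_reflect A m hmax]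
        exact gsum_reflect (A + A) (2 * m) (add_le_two A m hmax)
      have hcard : A'.card = A.card := card_reflect A m hmax
      rw [← h3]
      apply low_bound A' (sid_reflect A m hmax hSA) 0 (mem_image.2 ⟨m, hMA, by omega⟩)
        (fun b _ => Nat.zero_le b) n t n J (r₂ m) hn' hn ht _ (by rw [hcard]; exact hJ2)
      · by_contra hcon
        push Not at hcon
        exact hend (by rw [hE₂, mem_filter]; exact ⟨hAB hMA, hcon⟩)
      · intro j _
        have h2 : A'.filter (fun b => 0 ≤ b ∧ b < 0 + 2 * (2 ^ j * n)) ⊆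
            insert 0 ((B.filter (fun z => z < m ∧ m < z + 2 * (2 ^ j * n))).image
              (fun s => m - s)) := by
          intro z hz
          simp only [mem_filter, hA', mem_image] at hz
          simp only [mem_insert, mem_image, mem_filter]
          obtain ⟨⟨w, hw, rfl⟩, _, hz2⟩ := hz
          have h4 := hmax w hw
          rcases h4.eq_or_lt with h | h
          · left; omega
          · exact Or.inr ⟨w, ⟨hAB hw, h, by omega⟩, rfl⟩
        calc lo A' 0 (2 * (2 ^ j * n)) ≤ _ := card_le_card h2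
          _ ≤ _ := card_insert_le _ _
          _ ≤ 1 + r₂ m j := by
            rw [add_comm]
            exact Nat.add_le_add_left card_image_le _

end Pool.Agent.H69.SG
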