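import Mathlib
import Pool.Agent.H69.SG.Seg

set_option autoImplicit false
open Finset
open Pointwise

namespace Pool.Agent.H69.SG

open Pool.Agent.H34.SG (gaps IsSid)

/-- `A` is a Sidon set modulo `N`, written with residues in `{0, ..., N - 1}`. -/
def SidonMod (N : ℕ) (A : Finset ℕ) : Prop :=
  (∀ a ∈ A, a < N) ∧ ∀ a ∈ A, ∀ b ∈ A, ∀ c ∈ A, ∀ d ∈ A, (a + b) % N = (c + d) % N →
    (a = c ∧ b = d) ∨ (a = d ∧ b = c)

/-- The translate `A - a` modulo `N`. -/
def rot (N a : ℕ) (A : Finset ℕ) : Finset ℕ := A.image (fun x => (x + (N - a)) % N)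

lemma SidonMod.isSid {N : ℕ} {A : Finset ℕ} (h : SidonMod N A) : IsSid A :=
  fun a ha b hb c hc d hd e => h.2 a ha b hb c hc d hd (by rw [e])

lemma rot_inj {N a : ℕ} {A : Finset ℕ} (h : SidonMod N A) :
    Set.InjOn (fun x => (x + (N - a)) % N) (A : Set ℕ) := by
  intro x hx y hy hxy
  have h1 : (x + (N - a)) ≡ (y + (N - a)) [MOD N] := hxy
  exact Nat.ModEq.eq_of_lt_of_lt (Nat.ModEq.add_right_cancel' _ h1) (h.1 x hx) (h.1 y hy)

lemma card_rot {N a : ℕ} {A : Finset ℕ} (h : SidonMod N A) : (rot N a A).card = A.card :=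
  card_image_of_injOn (rot_inj h)

lemma rot_sidon {N a : ℕ} {A : Finset ℕ} (h : SidonMod N A) (hN : 0 < N) :
    SidonMod N (rot N a A) := by
  constructor
  · intro x hx
    obtain ⟨y, _, rfl⟩ := mem_image.1 hx
    exact Nat.mod_lt _ hN
  · intro x hx y hy z hz w hw e
    unfold rot at hx hy hz hw
    rw [mem_image] at hx hy hz hw
    obtain ⟨x, hx, rfl⟩ := hx
    obtain ⟨y, hy, rfl⟩ := hy
    obtain ⟨z, hz, rfl⟩ := hz
    obtain ⟨w, hw, rfl⟩ := hw
    rw [← Nat.add_mod, ← Nat.add_mod] at e
    have e1 : (x + (N - a)) + (y + (N - a)) = (x + y) + ((N - a) + (N - a)) := by ring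
    have e2 : (z + (N - a)) + (w + (N - a)) = (z + w) + ((N - a) + (N - a)) := by ring
    rw [e1, e2] at e
    have e3 : x + y ≡ z + w [MOD N] := Nat.ModEq.add_right_cancel' _ e
    rcases h.2 x hx y hy z hz w hw e3 with ⟨rfl, rfl⟩ | ⟨rfl, rfl⟩
    · exact Or.inl ⟨rfl, rfl⟩
    · exact Or.inr ⟨rfl, rfl⟩

lemma zero_mem_rot {N a : ℕ} {A : Finset ℕ} (h : SidonMod N A) (ha : a ∈ A) :
    0 ∈ rot N a A := by
  have := h.1 a ha
  refine mem_image.2 ⟨a, ha, ?_⟩
  have e : a + (N - a) = N := by omega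
  rw [e, Nat.mod_self]

lemma mem_rot {N a : ℕ} {A : Finset ℕ} (h0 : 0 ∈ A) : (N - a) % N ∈ rot N a A :=
  mem_image.2 ⟨0, h0, by rw [Nat.zero_add]⟩

lemma rot_rot {N a : ℕ} {A : Finset ℕ} (h : SidonMod N A) (ha : a ∈ A) :
    rot N ((N - a) % N) (rot N a A) = A := by
  have haN := h.1 a ha
  unfold rot
  rw [image_image]
  have key : ∀ x ∈ A, ((fun x => (x + (N - (N - a) % N)) % N) ∘ (fun x => (x + (N - a)) % N)) x
      = x := by
    intro x hx
    have hxN := h.1 x hx
    simp only [Function.comp_apply]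
    rcases Nat.eq_zero_or_pos a with rfl | ha0
    · simp only [Nat.sub_zero, Nat.mod_self, Nat.add_mod_right, Nat.mod_mod]
      exact Nat.mod_eq_of_lt hxN
    · have e1 : (N - a) % N = N - a := Nat.mod_eq_of_lt (by omega)
      have e2 : N - (N - a) = a := by omega
      rw [e1, e2, Nat.mod_add_mod]
      have e3 : x + (N - a) + a = x + N := by omega
      rw [e3, Nat.add_mod_right]
      exact Nat.mod_eq_of_lt hxN
  ext z
  rw [mem_image]
  constructor
  · rintro ⟨x, hx, rfl⟩
    rw [key x hx]; exact hx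
  · intro hz
    exact ⟨z, hz, key z hz⟩

lemma sum_rot {N : ℕ} {A : Finset ℕ} (h : SidonMod N A) (x : ℕ) :
    ∑ a ∈ A, ((rot N a A).filter (fun z => 0 < z ∧ z < x)).card ≤ x := by
  classical
  rw [← card_sigma]
  calc _ ≤ (range x).card := by
        apply card_le_card_of_injOn (fun p => p.2)
        · rintro ⟨a, z⟩ hp
          simp only [coe_sigma, Set.mem_sigma_iff, mem_coe, mem_filter] at hp
          simp only [coe_range, Set.mem_Iio]
          exact hp.2.2.2
        · rintro ⟨a, z⟩ hp ⟨a', z'⟩ hq hpq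
          simp only [coe_sigma, Set.mem_sigma_iff, mem_coe, mem_filter] at hp hq
          simp only at hpq
          subst hpq
          obtain ⟨b, hb, hbz⟩ := mem_image.1 hp.2.1
          obtain ⟨b', hb', hbz'⟩ := mem_image.1 hq.2.1
          have hbz : (b + (N - a)) % N = z := hbz
          have hbz' : (b' + (N - a')) % N = z := hbz'
          have haN := h.1 a hp.1
          have haN' := h.1 a' hq.1
          have e : b + (N - a) ≡ b' + (N - a') [MOD N] := hbz.trans hbz'.symm
          have e1 := Nat.ModEq.add_right (a + a') e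
          have e2 : b + (N - a) + (a + a') = (b + a') + N := by omega
          have e3 : b' + (N - a') + (a + a') = (b' + a) + N := by omega
          rw [e2, e3] at e1
          have e4 : b + a' ≡ b' + a [MOD N] := Nat.ModEq.add_right_cancel' _ e1
          rcases h.2 b hb a' hq.1 b' hb' a hp.1 e4 with h' | h'
          · rw [h'.2]
          · exfalso
            have e5 : b + (N - a) = N := by omega
            rw [e5, Nat.mod_self] at hbz
            omega
    _ = x := card_range x

/-- Few rotations with small mean square gap. -/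
theorem cyc {N : ℕ} {A : Finset ℕ} (h : SidonMod N A) (ε : ℝ) (h0 : 0 < ε) (h1 : ε ≤ 1) :
    ∃ E ⊆ A, (E.card : ℝ) ≤ ε * A.card ∧ ∀ a ∈ A, a ∉ E →
      ε ^ 2 * Real.log A.card / 25 ≤ msg (rot N a A) := by
  classical
  rcases A.eq_empty_or_nonempty with rfl | hA
  · exact ⟨∅, subset_rfl, by simp, by simp⟩
  have hN : 0 < N := by
    obtain ⟨a, ha⟩ := hA
    have := h.1 a ha
    omega
  have hn : 0 < A.card := card_pos.2 hA
  have hn' : (0 : ℝ) < A.card := by exact_mod_cast hn
  set n := A.card with hndef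
  set J := Nat.log 2 (n * (n - 1) / n) with hJ
  set t : ℝ := 2 / ε with htdef
  have ht : 0 < t := by positivity
  set r : ℕ → ℕ → ℕ := fun a j =>
    ((rot N a A).filter (fun z => 0 < z ∧ z < 2 * (2 ^ j * n))).card with hr
  set E := A.filter (fun a => J * t < ∑ j ∈ range J, dens n n (r a) j) with hE
  have ht2 : ∀ x : ℝ, 2 * x / t = ε * x := by
    intro x
    rw [htdef]
    field_simp
  have ht3 : ∀ x y : ℝ, x ^ 2 * y / (4 * t ^ 2) = x ^ 2 * (ε ^ 2 * y / 16) := by
    intro x y
    rw [htdef]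
    field_simp
    ring
  refine ⟨E, filter_subset _ _, ?_, ?_⟩
  · rw [← ht2]
    exact markov A n J r hn le_rfl (fun j _ => sum_rot h _) t ht E (filter_subset _ _)
      (fun b hb => (mem_filter.1 hb).2)
  · intro a ha haE
    set R := rot N a A with hR
    have hRm : SidonMod N R := rot_sidon h hN
    have hRc : R.card = n := card_rot h
    have hR0 : 0 ∈ R := zero_mem_rot h ha
    have hlogeq : Real.log n = Real.log ((n : ℝ) ^ 2 / n) := by
      rw [sq, mul_div_assoc, div_self hn'.ne', mul_one]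
    rw [hlogeq]
    apply real_final n n hn ε (msg R) h0.le h1 (msg_nonneg R)
      (fun hk => msg_trivial R hRm.isSid (by rw [hRc]; exact hk))
    by_cases hq : n * (n - 1) / n = 0
    · have : J = 0 := by rw [hJ, hq]; simp
      rw [← hJ, this]
      simpa using msg_nonneg R
    have hJ2 : 2 ^ J * n ≤ R.card * (R.card - 1) := by
      rw [hRc]; exact pow_log_le n n hq
    apply msg_of_gsum R ⟨0, hR0⟩ n _ (by rw [hRc]) (by positivity)
    rw [← ht3]
    apply low_bound R hRm.isSid 0 hR0 (fun b _ => Nat.zero_le b) n t n J (r a) hn' hn ht _ hJ2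
    · by_contra hcon
      push Not at hcon
      exact haE (by rw [hE, mem_filter]; exact ⟨ha, hcon⟩)
    · intro j _
      have h2 : R.filter (fun b => 0 ≤ b ∧ b < 0 + 2 * (2 ^ j * n)) ⊆
          insert 0 (R.filter (fun z => 0 < z ∧ z < 2 * (2 ^ j * n))) := by
        intro z hz
        simp only [mem_filter] at hz
        simp only [mem_insert, mem_filter]
        rcases Nat.eq_zero_or_pos z with h3 | h3
        · exact Or.inl h3
        · exact Or.inr ⟨hz.1, h3, by omega⟩
      calc lo R 0 (2 * (2 ^ j * n)) ≤ _ := card_le_card h2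
        _ ≤ _ := card_insert_le _ _
        _ = 1 + r a j := by rw [add_comm]

/-- The family of all Sidon sets modulo `N` with `n` elements that contain `0`. -/
def Fam (N n : ℕ) : Set (Finset ℕ) := {A | 0 ∈ A ∧ A.card = n ∧ SidonMod N A}

lemma Fam_finite (N n : ℕ) : (Fam N n).Finite := by
  apply ((range N).powerset.finite_toSet).subset
  intro A hA
  rw [mem_coe, mem_powerset]
  intro a ha
  exact mem_range.2 (hA.2.2.1 a ha)

/-- Almost all Sidon sets modulo `N` have large mean square gap. -/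
theorem family (N n : ℕ) (hn : 2 ≤ n) (K : ℝ) (hK : 0 < K) :
    (({A | A ∈ Fam N n ∧ msg A ≤ K} : Set (Finset ℕ)).ncard : ℝ) ≤
      6 * Real.sqrt (K / Real.log n) * (Fam N n).ncard := by
  classical
  have hn' : (0 : ℝ) < n := by
    have : 0 < n := by omega
    exact_mod_cast this
  have hn2 : (2 : ℝ) ≤ n := by exact_mod_cast hn
  have hlog : 0 < Real.log n := Real.log_pos (by linarith)
  set s := Real.sqrt (K / Real.log n) with hs
  have hs0 : 0 < s := Real.sqrt_pos.2 (by positivity)
  have hs2 : s ^ 2 = K / Real.log n := Real.sq_sqrt (by positivity)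
  have hsub : ({A | A ∈ Fam N n ∧ msg A ≤ K} : Set (Finset ℕ)) ⊆ Fam N n := fun A hA => hA.1
  have hfin := Fam_finite N n
  rcases lt_or_ge 1 (6 * s) with h6 | h6
  · have h1 : (({A | A ∈ Fam N n ∧ msg A ≤ K} : Set (Finset ℕ)).ncard : ℝ) ≤ (Fam N n).ncard := by
      exact_mod_cast Set.ncard_le_ncard hsub hfin
    have h2 : (0 : ℝ) ≤ (Fam N n).ncard := Nat.cast_nonneg _
    nlinarith
  -- pass to finsets
  set F := hfin.toFinset with hF
  set G := F.filter (fun A => msg A ≤ K) with hG
  have hFc : (Fam N n).ncard = F.card := Set.ncard_eq_toFinset_card _ hfin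
  have hGc : ({A | A ∈ Fam N n ∧ msg A ≤ K} : Set (Finset ℕ)).ncard = G.card := by
    rw [← Set.ncard_coe_finset]
    congr 1
    ext A
    simp only [Set.mem_setOf_eq, hG, hF, coe_filter, Set.Finite.mem_toFinset]
  rw [hFc, hGc]
  have hFm : ∀ A ∈ F, 0 ∈ A ∧ A.card = n ∧ SidonMod N A := by
    intro A hA
    rw [hF, Set.Finite.mem_toFinset] at hA
    exact hA
  -- bad rotations of one set
  have hone : ∀ A ∈ F, ((A.filter (fun a => msg (rot N a A) ≤ K)).card : ℝ) ≤ 6 * s * n := by
    intro A hA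
    obtain ⟨_, hAc, hAs⟩ := hFm A hA
    obtain ⟨E, _, hE1, hE2⟩ := cyc hAs (6 * s) (by positivity) h6
    rw [hAc] at hE1 hE2
    refine le_trans ?_ hE1
    have h3 : A.filter (fun a => msg (rot N a A) ≤ K) ⊆ E := by
      intro a ha
      rw [mem_filter] at ha
      by_contra hcon
      have h4 := hE2 a ha.1 hcon
      rw [mul_pow, hs2] at h4
      have h5 : 6 ^ 2 * (K / Real.log n) * Real.log n / 25 = 36 / 25 * K := by
        field_simp
        norm_num
      rw [h5] at h4
      linarith [ha.2]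
    exact_mod_cast card_le_card h3
  -- double counting
  have hcount : G.card * n ≤ ∑ A ∈ F, (A.filter (fun a => msg (rot N a A) ≤ K)).card := by
    have h3 : G.card * n = ∑ A ∈ G, A.card := by
      rw [sum_const_nat (m := n)]
      intro A hA
      exact (hFm A (mem_filter.1 hA).1).2.1
    rw [h3, ← card_sigma, ← card_sigma]
    apply card_le_card_of_injOn
      (fun p : (_ : Finset ℕ) × ℕ => (⟨rot N p.2 p.1, (N - p.2) % N⟩ : (_ : Finset ℕ) × ℕ))
    · rintro ⟨A, a⟩ hp
      simp only [coe_sigma, Set.mem_sigma_iff, mem_coe] at hp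
      obtain ⟨hAG, haA⟩ := hp
      rw [hG, mem_filter] at hAG
      obtain ⟨hA0, hAc, hAs⟩ := hFm A hAG.1
      have hN : 0 < N := by
        have := hAs.1 a haA
        omega
      simp only [coe_sigma, Set.mem_sigma_iff, mem_coe, mem_filter]
      refine ⟨?_, mem_rot hA0, ?_⟩
      · rw [hF, Set.Finite.mem_toFinset]
        exact ⟨zero_mem_rot hAs haA, by rw [card_rot hAs]; exact hAc, rot_sidon hAs hN⟩
      · rw [rot_rot hAs haA]
        exact hAG.2
    · rintro ⟨A, a⟩ hp ⟨A', a'⟩ hq hpq
      simp only [coe_sigma, Set.mem_sigma_iff, mem_coe] at hp hq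
      obtain ⟨hAG, haA⟩ := hp
      obtain ⟨hAG', haA'⟩ := hq
      rw [hG, mem_filter] at hAG hAG'
      obtain ⟨_, _, hAs⟩ := hFm A hAG.1
      obtain ⟨_, _, hAs'⟩ := hFm A' hAG'.1
      simp only [Sigma.mk.injEq, heq_eq_eq] at hpq
      have haN := hAs.1 a haA
      have haN' := hAs'.1 a' haA'
      have hAA : A = A' := by
        rw [← rot_rot hAs haA, ← rot_rot hAs' haA', hpq.1, hpq.2]
      have haa : a = a' := by
        rcases Nat.eq_zero_or_pos a with h5 | h5 <;> rcases Nat.eq_zero_or_pos a' with h7 | h7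
        · omega
        · exfalso
          have h8 := hpq.2
          rw [h5, Nat.sub_zero, Nat.mod_self, Nat.mod_eq_of_lt (by omega)] at h8
          omega
        · exfalso
          have h8 := hpq.2
          rw [h7, Nat.sub_zero, Nat.mod_self, Nat.mod_eq_of_lt (by omega)] at h8
          omega
        · have h8 := hpq.2
          rw [Nat.mod_eq_of_lt (by omega), Nat.mod_eq_of_lt (by omega)] at h8
          omega
      rw [hAA, haa]
  have hcount' : (G.card : ℝ) * n ≤ F.card * (6 * s * n) := by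
    calc (G.card : ℝ) * n ≤ ∑ A ∈ F, ((A.filter (fun a => msg (rot N a A) ≤ K)).card : ℝ) := by
          exact_mod_cast hcount
      _ ≤ ∑ _A ∈ F, (6 * s * n) := sum_le_sum hone
      _ = _ := by simp
  have h7 : (G.card : ℝ) * n ≤ (6 * s * F.card) * n := by linarith
  exact le_of_mul_le_mul_right h7 hn'

end Pool.Agent.H69.SG
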